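import Pool.Agent.Q293.DPPRec
import Pool.Agent.Q293.DPPTail

/-!
# A recurrent planar discrete point process violating condition (T)
-/

set_option autoImplicit false

open MeasureTheory Filter Topology Q293.Odo Q293.DPP Q293.Anti
open scoped ENNReal

namespace Pool.Agent.Results.MP_01c081_pr.RecurrentHeavyTail

/-- the annealed probability `∫ P_ω (G) P(dω)` of a path event `G`, where `P = Q (· | ω 0 = 1)` -/
noncomputable def annealed (Q : Measure Conf) (G : (ℕ → ℤ × ℤ) → Prop) : ℝ≥0∞ :=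
  ∫⁻ ω, dirLaw {ξ | G fun n => walk ω ξ n} ∂(palm Q)

/-- recurrence: the walk returns to the origin with annealed probability one -/
def Recurrent (Q : Measure Conf) : Prop := annealed Q (fun X => ∃ n, 1 ≤ n ∧ X n = 0) = 1

/-- condition (T) -/
def CondT (Q : Measure Conf) : Prop :=
  ∃ C : ℝ, 0 < C ∧ ∀ e : ℤ × ℤ, (e = (1, 0) ∨ e = (0, 1)) → ∀ N : ℕ, 1 ≤ N →
    (∑' k : ℕ, if N ≤ k then (k : ℝ≥0∞) * palm Q {ω | gap e ω = k} else 0)
      / (∫⁻ ω, (gap e ω : ℝ≥0∞) ∂(palm Q)) ≤ ENNReal.ofReal (C / N)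

lemma recurrent_m1 : Recurrent (Qm m1) := by
  have hS : MeasurableSet {p : Conf × (ℕ → Dir) | ∃ n, 1 ≤ n ∧ walk p.1 p.2 n = 0} := by
    have : {p : Conf × (ℕ → Dir) | ∃ n, 1 ≤ n ∧ walk p.1 p.2 n = 0}
        = ⋃ (n : ℕ) (_ : 1 ≤ n), {p : Conf × (ℕ → Dir) | walk p.1 p.2 n = 0} := by
      ext p
      simp only [Set.mem_ofPred_eq, Set.mem_iUnion, exists_prop]
    rw [this]
    exact MeasurableSet.iUnion fun n => MeasurableSet.iUnion fun _ =>
      (measurable_walk n) (MeasurableSet.of_discrete (s := {(0 : ℤ × ℤ)}))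
  have h1 : ∀ᵐ ω ∂(palm (Qm m1)), ∀ᵐ ξ ∂dirLaw, ∃ n, 1 ≤ n ∧ walk ω ξ n = 0 := by
    apply ae_palm (p := fun ω => ∀ᵐ ξ ∂dirLaw, ∃ n, 1 ≤ n ∧ walk ω ξ n = 0)
    · exact measurable_quenched hS
    · filter_upwards [ae_far adm1] with κ hκ h0
      have h2 := ae_return_of_green (step (Phi m1 κ)) 0 (green_infinite adm1 m1_lim hκ h0)
      filter_upwards [h2] with ξ hξ
      simpa only [walk_eq_W] using hξ
  have hne : (Qm m1) Omega0 ≠ 0 := by
    have := density_ge adm1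
    intro h0
    rw [h0] at this
    norm_num at this
  have : IsProbabilityMeasure (palm (Qm m1)) := ProbabilityTheory.cond_isProbabilityMeasure hne
  unfold Recurrent annealed
  have h2 : ∀ᵐ ω ∂(palm (Qm m1)), dirLaw {ξ | ∃ n, 1 ≤ n ∧ walk ω ξ n = 0} = 1 := by
    filter_upwards [h1] with ω hω
    have h3 : dirLaw {ξ | ∃ n, 1 ≤ n ∧ walk ω ξ n = 0} = dirLaw Set.univ := by
      apply measure_congr
      filter_upwards [hω] with ξ hξ
      exact propext ⟨fun _ => trivial, fun _ => hξ⟩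
    rw [h3, measure_univ]
  rw [lintegral_congr_ae h2]
  simp

lemma m1_big (j : ℕ) : 3 * (j + 1) + 8 ≤ m1 (j + 1) := by
  induction j with
  | zero => rw [m1, m1]; norm_num
  | succ j ih =>
    rw [m1]
    have h1 := four_pow_ge (m1 (j + 1))
    omega

lemma not_condT_m1 : ¬ CondT (Qm m1) := by
  rintro ⟨C, hC, h⟩
  obtain ⟨j, hj⟩ := exists_nat_gt C
  have h1 := h (1, 0) (Or.inl rfl) (Nn m1 (j + 1)) (Nn_pos _)
  have h2 := tail_ge adm1 (j + 1) (e := (1, 0)) (by norm_num)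
  have h3 := h2.trans h1
  have h4 : ((2 : ℝ≥0∞) ^ (j + 1 + 4))⁻¹ = ENNReal.ofReal (1 / 2 ^ (j + 1 + 4)) := by
    rw [one_div, ENNReal.ofReal_inv_of_pos (by positivity), ENNReal.ofReal_pow (by norm_num)]
    norm_num
  rw [h4] at h3
  have hNpos : (0 : ℝ) < Nn m1 (j + 1) := by exact_mod_cast Nn_pos (m := m1) (j + 1)
  have h5 := (ENNReal.ofReal_le_ofReal_iff (by positivity)).1 h3
  rw [div_le_div_iff₀ (by positivity) hNpos, one_mul] at h5
  have h6 : ((2 : ℝ) ^ (j + 1)) * 2 ^ (j + 1 + 4) ≤ Nn m1 (j + 1) := by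
    unfold Nn
    push_cast
    rw [← pow_add]
    apply pow_le_pow_right₀ (by norm_num)
    have := m1_big j
    omega
  have h7 : (C : ℝ) < 2 ^ (j + 1) := by
    have h8 : j < 2 ^ j := Nat.lt_two_pow_self
    have h9 : (j : ℝ) < 2 ^ j := by exact_mod_cast h8
    have h10 : (2 : ℝ) ^ j ≤ 2 ^ (j + 1) := pow_le_pow_right₀ (by norm_num) (by omega)
    linarith
  have h8 : C * 2 ^ (j + 1 + 4) < 2 ^ (j + 1) * 2 ^ (j + 1 + 4) :=
    mul_lt_mul_of_pos_right h7 (by positivity)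
  linarith

/-- **MP_01c081_pr, Q1 (positive answer).**  There is a two-dimensional discrete point process
for which the random walk is recurrent although condition (T) fails. -/
theorem result : ∃ Q : Measure Conf, IsDPP Q ∧ Recurrent Q ∧ ¬ CondT Q :=
  ⟨Qm m1, isDPP adm1, recurrent_m1, not_condT_m1⟩

end Pool.Agent.Results.MP_01c081_pr.RecurrentHeavyTail
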